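import Mathlib
import Pool.Agent.H970Z.Rz.Defs
import Pool.Agent.H970Z.Rz.Final

set_option autoImplicit false

namespace Pool.Agent.Results.MP_465281_an.EuclideanBounded

/-- The Ruziewicz problem for the bounded Borel subsets of `ℝ^n`, `n ≥ 3`: a set function is a
finitely additive, isometry-invariant measure on the bounded Borel sets giving the unit cube
mass `1` if and only if it agrees with Lebesgue measure on every bounded Borel set. -/
theorem result (n : ℕ) (hn : 3 ≤ n) (μ : Set (EuclideanSpace ℝ (Fin n)) → ENNReal) :
    Pool.Agent.H970Z.Rz.IsInvariantFA μ ↔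
      ∀ A : Set (EuclideanSpace ℝ (Fin n)), MeasurableSet A → Bornology.IsBounded A →
        μ A = MeasureTheory.volume A :=
  Pool.Agent.H970Z.Rz.main n hn μ

end Pool.Agent.Results.MP_465281_an.EuclideanBounded
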